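import Mathlib

namespace Pool.Agent.Helper941.IsoProb

open Encodable Denumerable

/-- The arithmetical hierarchy for predicates on a (primitive recursively) coded type:
level `0` consists of the computable predicates, and a predicate is at level `n + 1` when it
has the form `∃ y, ¬ Q (a, y)` with `Q` at level `n`. So `Sigma0 n` is the class of the
(lightface) `Σ⁰_n` predicates. -/
def Sigma0 : ℕ → ∀ {α : Type} [Primcodable α], (α → Prop) → Prop
  | 0, _, _, P => ComputablePred P
  | n + 1, α, _, P => ∃ Q : α × ℕ → Prop, Sigma0 n Q ∧ ∀ a, P a ↔ ∃ y, ¬ Q (a, y)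

/-- The `Π⁰_n` predicates: complements of `Σ⁰_n` predicates. -/
def Pi0 (n : ℕ) {α : Type} [Primcodable α] (P : α → Prop) : Prop :=
  Sigma0 n fun a => ¬ P a

/-- The `Δ⁰_n` predicates. -/
def Delta0 (n : ℕ) {α : Type} [Primcodable α] (P : α → Prop) : Prop :=
  Sigma0 n P ∧ Pi0 n P

/-- A predicate is `Σ⁰_n`-complete if it is `Σ⁰_n` and every `Σ⁰_n` set of natural numbers
is many-one reducible to it by a computable function. -/
def SigmaComplete (n : ℕ) {α : Type} [Primcodable α] (P : α → Prop) : Prop :=
  Sigma0 n P ∧ ∀ S : ℕ → Prop, Sigma0 n S → ManyOneReducible S P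

/-- Structures for the relational language with relation symbols `R_0, R_1, …`, the symbol
`R_i` having arity `ar i`. The universe is a nonempty subset of the natural numbers. -/
structure Str (ar : ℕ → ℕ) where
  dom : Set ℕ
  dom_nonempty : dom.Nonempty
  rel : ℕ → List ℕ → Prop
  rel_dom : ∀ i v, rel i v → v.length = ar i ∧ ∀ x ∈ v, x ∈ dom

variable {ar : ℕ → ℕ}

/-- The atomic diagram: `inl x` stands for `x` being an element of the universe, and
`inr (i, v)` for the atomic sentence `R_i(v)`. -/
def Str.Holds (A : Str ar) : ℕ ⊕ ℕ × List ℕ → Prop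
  | Sum.inl x => x ∈ A.dom
  | Sum.inr (i, v) => A.rel i v

/-- Isomorphism: a bijection of the universes preserving and reflecting every relation. -/
def Str.Iso (A B : Str ar) : Prop :=
  ∃ f : A.dom ≃ B.dom, ∀ (i : ℕ) (v : List A.dom),
    A.rel i (v.map fun x : A.dom => (x : ℕ)) ↔ B.rel i (v.map fun x : A.dom => (f x : ℕ))

/-- `e` is an index of the structure `A`: the `e`-th computable function with possibly
undefined values is total on codes of atomic sentences and it is the characteristic function
of the atomic diagram of `A`. -/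
def IndexOf (e : ℕ) (A : Str ar) : Prop :=
  ∀ q : ℕ ⊕ ℕ × List ℕ,
    (A.Holds q → Nat.Partrec.Code.eval (ofNat Nat.Partrec.Code e) (encode q) = Part.some 1) ∧
    (¬ A.Holds q → Nat.Partrec.Code.eval (ofNat Nat.Partrec.Code e) (encode q) = Part.some 0)

/-- The index set of a class `K` of structures. -/
def IndexSet (K : Set (Str ar)) (e : ℕ) : Prop :=
  ∃ A ∈ K, IndexOf e A

/-- The isomorphism problem `E(K)` of a class `K` of structures: pairs of indices of
isomorphic (computable) members of `K`. -/
def IsoProblem (K : Set (Str ar)) (p : ℕ × ℕ) : Prop :=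
  ∃ A ∈ K, ∃ B ∈ K, IndexOf p.1 A ∧ IndexOf p.2 B ∧ A.Iso B

end Pool.Agent.Helper941.IsoProb
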