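import Mathlib
import Pool.Agent.KS6_49.L8.Helper941.Inj

namespace Pool.Agent.Helper941.IsoProb

open Encodable Denumerable

/-- the `a`-th initial segment is verified at time `t` -/
def Ver (f : (ℕ × ℕ) × ℕ → ℕ → Bool) (n k a t : ℕ) : Prop :=
  ∀ a' < a + 1, f ((n, k), a') t = true

def Ev (f : (ℕ × ℕ) × ℕ → ℕ → Bool) (n k t : ℕ) : Prop :=
  ∃ a < t + 1, Ver f n k a t ∧ (t = a ∨ ¬ Ver f n k a (t - 1))

theorem ev_iff (f : (ℕ × ℕ) × ℕ → ℕ → Bool)
    (hf : ∀ z s t, s ≤ t → f z s = true → f z t = true) (n k : ℕ) :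
    (∀ a, ∃ b, f ((n, k), a) b = true) ↔ ∀ T, ∃ t, T ≤ t ∧ Ev f n k t := by
  classical
  constructor
  · intro h T
    choose g hg using h
    have hex : ∃ t, T ≤ t ∧ Ver f n k T t := by
      refine ⟨max T ((Finset.range (T + 1)).sup g), le_max_left _ _, fun a' ha' => ?_⟩
      refine hf _ _ _ (le_trans ?_ (le_max_right _ _)) (hg a')
      exact Finset.le_sup (Finset.mem_range.2 ha')
    have h1 := Nat.find_spec hex
    refine ⟨Nat.find hex, h1.1, T, by omega, h1.2, ?_⟩
    by_cases ht : Nat.find hex = T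
    · exact Or.inl ht
    · right
      intro hv
      have : Nat.find hex - 1 < Nat.find hex := by omega
      exact Nat.find_min hex this ⟨by omega, hv⟩
  · intro h a
    by_contra hc
    push Not at hc
    -- each `a' < a` contributes at most one event
    have key : ∀ a', ∃ T, ∀ t, a' < t + 1 → Ver f n k a' t → (t = a' ∨ ¬ Ver f n k a' (t - 1)) →
        t ≤ T := by
      intro a'
      by_cases hx : ∃ t, a' < t + 1 ∧ Ver f n k a' t
      · obtain ⟨T, hT1, hT2⟩ := hx
        refine ⟨T, fun t ht1 ht2 ht3 => ?_⟩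
        by_contra hlt
        push Not at hlt
        rcases ht3 with h3 | h3
        · omega
        · exact h3 fun x hx => hf _ _ _ (by omega) (hT2 x hx)
      · exact ⟨0, fun t h1 h2 _ => absurd ⟨t, h1, h2⟩ hx⟩
    choose g hg using key
    obtain ⟨t, ht, a', ha', hv, h3⟩ := h ((Finset.range a).sup g + 1)
    have haa : a' < a := by
      by_contra hge
      push Not at hge
      have := hv a (by omega)
      exact absurd this (hc t)
    have h4 := hg a' t ha' hv h3
    have h5 : g a' ≤ (Finset.range a).sup g := Finset.le_sup (Finset.mem_range.2 haa)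
    omega

theorem primrec_Ver {α : Type} [Primcodable α] {f : (ℕ × ℕ) × ℕ → ℕ → Bool} (hf : Primrec₂ f)
    {n k a t : α → ℕ} (hn : Primrec n) (hk : Primrec k) (ha : Primrec a) (ht : Primrec t) :
    PrimrecPred fun x => Ver f (n x) (k x) (a x) (t x) := by
  unfold Ver
  refine primrec_ball (R := fun x a' => f ((n x, k x), a') (t x) = true) ?_ (Primrec.succ.comp ha)
  refine primrec_bool (hf.comp ?_ (ht.comp Primrec.fst))
  exact Primrec.pair (Primrec.pair (hn.comp Primrec.fst) (hk.comp Primrec.fst)) Primrec.snd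

theorem primrec_Ev {α : Type} [Primcodable α] {f : (ℕ × ℕ) × ℕ → ℕ → Bool} (hf : Primrec₂ f)
    {n k t : α → ℕ} (hn : Primrec n) (hk : Primrec k) (ht : Primrec t) :
    PrimrecPred fun x => Ev f (n x) (k x) (t x) := by
  unfold Ev
  refine primrec_bex (R := fun x a => Ver f (n x) (k x) a (t x) ∧
    (t x = a ∨ ¬ Ver f (n x) (k x) a (t x - 1))) ?_ (Primrec.succ.comp ht)
  have n1 := hn.comp (Primrec.fst (α := α) (β := ℕ))
  have k1 := hk.comp (Primrec.fst (α := α) (β := ℕ))
  have t1 := ht.comp (Primrec.fst (α := α) (β := ℕ))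
  refine PrimrecPred.and (primrec_Ver hf n1 k1 Primrec.snd t1)
    (PrimrecPred.or (Primrec.eq.comp t1 Primrec.snd)
      (PrimrecPred.not (primrec_Ver hf n1 k1 Primrec.snd (Primrec.pred.comp t1))))

/-- the uniform family of recursively enumerable sets -/
theorem exists_family {C : ℕ → Prop} (hC : Sigma0 3 C) {W : ℕ × ℕ → Prop} (hW : Sigma0 1 W) :
    ∃ (V : ℕ → ℕ → ℕ → Bool) (T : ℕ → ℕ → ℕ → ℕ → Bool),
      (Primrec fun x : ℕ × ℕ × ℕ => V x.1 x.2.1 x.2.2) ∧
      (Primrec fun x : ℕ × ℕ × ℕ × ℕ => T x.1 x.2.1 x.2.2.1 x.2.2.2) ∧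
      (∀ n p, V n 0 p = false) ∧
      (∀ n s t p, s ≤ t → V n s p = true → V n t p = true) ∧
      (∀ n, C n → ∃ B, ∀ p, (∀ s, V n s p = false) → p < B) ∧
      (∀ n, ¬ C n → (∀ B, ∃ p, B ≤ p ∧ ∀ s, V n s p = false) ∧
        ∀ q, (∀ B, ∃ p, B ≤ p ∧ (∀ s, V n s p = false) ∧ W (q, p)) ↔
          ∀ m S, ∃ s, S ≤ s ∧ T n q m s = true) := by
  classical
  obtain ⟨Q, hQ, eC⟩ := hC
  obtain ⟨R, hR, eQ⟩ := hQ
  obtain ⟨f, hf, hfm, ef⟩ := sigma1_primrec hR
  obtain ⟨w', hw', hwm', ew⟩ := sigma1_primrec hW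
  set w : ℕ → ℕ → ℕ → Bool := fun q p s => w' (q, p) s with hwdef
  have hw : Primrec fun p : ℕ × ℕ × ℕ => w p.1 p.2.1 p.2.2 :=
    hw'.comp (Primrec.pair Primrec.fst (Primrec.fst.comp Primrec.snd))
      (Primrec.snd.comp Primrec.snd)
  have hwm : ∀ q p s t, s ≤ t → w q p s = true → w q p t = true :=
    fun q p s t hst => hwm' (q, p) s t hst
  set ev : ℕ → ℕ → Bool := fun n s => decide (Ev f n s.unpair.1 s.unpair.2) with hevdef
  have hev : Primrec₂ ev :=
    (primrec_Ev hf (α := ℕ × ℕ) (n := fun x => x.1) (k := fun x => x.2.unpair.1)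
      (t := fun x => x.2.unpair.2) Primrec.fst (primrec_unpair_fst Primrec.snd)
      (primrec_unpair_snd Primrec.snd)).decide
  have hCinf : ∀ n, C n ↔ ∃ k, InfEv (ev n) k := by
    intro n
    rw [eC]
    refine exists_congr fun k => ?_
    have h1 : ¬ Q (n, k) ↔ ∀ a, ∃ b, f ((n, k), a) b = true := by
      rw [eQ]
      push Not
      exact forall_congr' fun a => ef _
    rw [h1, ev_iff f hfm]
    unfold InfEv
    constructor
    · intro h S
      obtain ⟨t, ht, he⟩ := h S
      refine ⟨Nat.pair k t, le_trans ht (Nat.right_le_pair k t), by rw [Nat.unpair_pair], ?_⟩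
      simp only [hevdef, Nat.unpair_pair, decide_eq_true_eq]
      exact he
    · intro h T
      -- only finitely many stages have small second component
      obtain ⟨s, hs, hsk, hse⟩ := h (Nat.pair k T)
      refine ⟨s.unpair.2, ?_, ?_⟩
      · by_contra hlt
        push Not at hlt
        have : Nat.pair k s.unpair.2 < Nat.pair k T := Nat.pair_lt_pair_right k hlt
        have h2 : Nat.pair k s.unpair.2 = s := by
          conv_rhs => rw [← Nat.pair_unpair s, hsk]
        omega
      · simp only [hevdef, decide_eq_true_eq] at hse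
        rw [hsk] at hse
        exact hse
  refine ⟨fun n s p => Vs w (ev n) s p,
    fun n q m s => decide (Sat w (Ls w (ev n) s) (Nat.pair q m) s s), ?_, ?_, ?_, ?_, ?_, ?_⟩
  · unfold Vs
    refine primrec_getD_false ?_ (Primrec.snd.comp Primrec.snd)
    exact primrec_Ls hw (α := ℕ × ℕ × ℕ) (ev := fun x => ev x.1)
      (hev.comp (Primrec.fst.comp Primrec.fst) Primrec.snd) (Primrec.fst.comp Primrec.snd)
  · have s1 : Primrec fun x : ℕ × ℕ × ℕ × ℕ => x.2.2.2 :=
      Primrec.snd.comp (Primrec.snd.comp Primrec.snd)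
    refine (primrec_Sat hw (α := ℕ × ℕ × ℕ × ℕ) (f := fun x => Ls w (ev x.1) x.2.2.2)
      (i := fun x => Nat.pair x.2.1 x.2.2.1) (s := fun x => x.2.2.2) (g := fun x => x.2.2.2)
      ?_ ?_ s1 s1).decide
    · exact primrec_Ls hw (α := ℕ × ℕ × ℕ × ℕ) (ev := fun x => ev x.1)
        (hev.comp (Primrec.fst.comp Primrec.fst) Primrec.snd) s1
    · exact Primrec₂.natPair.comp (Primrec.fst.comp Primrec.snd)
        (Primrec.fst.comp (Primrec.snd.comp Primrec.snd))
  · intro n p; exact Vs_zero _ _ _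
  · intro n s t p hst; exact Vs_mono _ _ hst
  · intro n hn
    exact caseA w (ev n) hwm ((hCinf n).1 hn)
  · intro n hn
    have hn' : ∀ k, ¬ InfEv (ev n) k := by
      intro k hk
      exact hn ((hCinf n).2 ⟨k, hk⟩)
    refine ⟨caseB_inf w (ev n) hn', fun q => ?_⟩
    have := caseB_W w (ev n) hwm hn' q
    simp only [decide_eq_true_eq]
    rw [← this]
    refine forall_congr' fun B => exists_congr fun p => and_congr_right fun _ =>
      and_congr_right fun _ => ?_
    exact ew (q, p)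

end Pool.Agent.Helper941.IsoProb
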